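import Pool.Agent.H.MP_75529e_al.A

set_option autoImplicit false
open Pool.Agent.H.MP_75529e_al

namespace Pool.Agent.Results.MP_75529e_al.CharTwo

theorem result : ∃ (J : Type) (_ : NonUnitalNonAssocCommRing J), (∀ x y : J, x * x * y * x = x * x * (y * x)) ∧
    (∀ K : AddSubgroup J, (∀ x, ∀ k ∈ K, x * k ∈ K) → (∀ a ∈ K, ∀ b ∈ K, a * b = 0) → K = ⊥) ∧
    ∃ I K : AddSubgroup J, (∀ x, ∀ a ∈ I, x * a ∈ I) ∧ K ≤ I ∧ (∀ x ∈ I, ∀ k ∈ K, x * k ∈ K) ∧ K ≠ ⊥ ∧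
      ∀ a ∈ K, ∀ b ∈ K, a * b = 0 := by
  refine ⟨R, inferInstance, by decide, fun K h h' => eq_bot_iff.mpr fun y hy => by_contra fun h0 => ?_,
    ⟨⟨⟨{x | x.2.2 = 0}, fun {x y} => by revert x y; decide⟩, rfl⟩, fun {x} => by revert x; decide⟩,
    ⟨⟨⟨{x | x.1 = 0 ∧ x.2.2 = 0}, fun {x y} => by revert x y; decide⟩, rfl, rfl⟩, fun {x} => by revert x; decide⟩,
    fun _ _ _ => rfl, fun _ h => h.2, fun x hx k hk => ?_, fun e => ?_, fun a ha b hb => ?_⟩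
  · obtain ⟨a, b, c, e⟩ := (by decide : ∀ y : R, y ≠ 0 → ∃ a b c, a * y * (c * (b * y)) ≠ 0) y h0
    exact e (h' _ (h _ _ hy) _ (h _ _ (h _ _ hy)))
  · exact (by decide : ∀ x k : R, x.2.2 = 0 → k.1 = 0 ∧ k.2.2 = 0 → (x * k).1 = 0 ∧ (x * k).2.2 = 0) x k hx hk
  · exact absurd (AddSubgroup.mem_bot.mp (e.le (show mk 0 1 0 ∈ _ from ⟨rfl, rfl⟩))) (by decide)
  · exact (by decide : ∀ a b : R, a.1 = 0 ∧ a.2.2 = 0 → b.1 = 0 ∧ b.2.2 = 0 → a * b = 0) a b ha hb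

end Pool.Agent.Results.MP_75529e_al.CharTwo
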